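import Mathlib
import Pool.Agent.H71.Cos2

namespace Pool.Agent.Results.MP_e825aa_al.Infinite

/-- `G/H` is an irreducible coset space: `H` is maximal among the proper closed subgroups -/
def Irreducible {G : Type} [Group G] [TopologicalSpace G] (H : Subgroup G) : Prop :=
  IsClosed (H : Set G) ∧ H ≠ ⊤ ∧ ∀ K : Subgroup G, IsClosed (K : Set G) → H ≤ K → K = H ∨ K = ⊤

/-- `G/H` is faithful: the conjugates of `H` intersect trivially -/
def Faithful {G : Type} [Group G] (H : Subgroup G) : Prop :=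
  ⨅ g : G, H.map (MulAut.conj g).toMonoidHom = ⊥

/-- minimal nontrivial closed normal subgroups -/
def MinClosedNormal {G : Type} [Group G] [TopologicalSpace G] (M : Subgroup G) : Prop :=
  IsClosed (M : Set G) ∧ M.Normal ∧ M ≠ ⊥ ∧
    ∀ K : Subgroup G, IsClosed (K : Set G) → K.Normal → K ≤ M → K = ⊥ ∨ K = M

theorem result : ∃ (G : Type) (_ : Group G) (_ : TopologicalSpace G), IsTopologicalGroup G ∧
    PolishSpace G ∧ ∃ H : Subgroup G, Irreducible H ∧ Faithful H ∧
      {M : Subgroup G | MinClosedNormal M}.Infinite := by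
  obtain ⟨G, _, _, h1, h2, H, a, b, c, d, N, n1, n2, n3⟩ := H71.Cos.main
  have hm : ∀ i, MinClosedNormal (N i) := fun i =>
    ⟨(n1 i).1, (n1 i).2.1, (n1 i).2.2.1, fun K _ => (n1 i).2.2.2 K⟩
  refine ⟨G, _, _, h1, h2, H, ⟨a, b, c⟩, bot_unique fun g hg => d g fun k => ?_, ?_⟩
  · obtain ⟨x, hx, rfl⟩ := Subgroup.mem_iInf.1 hg k⁻¹
    simpa [mul_assoc] using hx
  · refine Set.infinite_of_injective_forall_mem (f := N) (fun i j e => ?_) hm
    by_contra hne
    exact (n1 j).2.2.1 (by simpa [e] using n2 i j hne)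

end Pool.Agent.Results.MP_e825aa_al.Infinite
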